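import Pool.Agent.Helper29.SH.Goals

/-!
# Packet SH-QUNI (MP_0a002a_al): directed unions
-/

set_option autoImplicit false

namespace Pool.Agent.Helper89.SH

open Subgroup Pool.H83Shunkov Pool.Agent.Helper29.SH

/-- the centralizer of a torsion element has finite index if there are finitely many torsion
elements -/
theorem cen_index {E : Type} [Group E] (s : E) (hT : {g : E | IsOfFinOrder g}.Finite)
    (hs : IsOfFinOrder s) : (centralizer ({s} : Set E)).FiniteIndex := by
  haveI : Finite {g : E | IsOfFinOrder g} := hT.to_subtype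
  have hconj : ∀ g : E, IsOfFinOrder (g * s * g⁻¹) := fun g =>
    (MulAut.conj g).toMonoidHom.isOfFinOrder hs
  have hwd : ∀ g h : E, g⁻¹ * h ∈ centralizer ({s} : Set E) → g * s * g⁻¹ = h * s * h⁻¹ := by
    intro g h hgh
    rw [mem_centralizer_iff] at hgh
    have h1 : s * (g⁻¹ * h) = g⁻¹ * h * s := hgh s rfl
    have h2 : g * (s * (g⁻¹ * h)) * h⁻¹ = g * (g⁻¹ * h * s) * h⁻¹ := by rw [h1]
    have h3 : g * (s * (g⁻¹ * h)) * h⁻¹ = g * s * g⁻¹ := by group
    have h4 : g * (g⁻¹ * h * s) * h⁻¹ = h * s * h⁻¹ := by group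
    rw [← h3, h2, h4]
  have hinj : ∀ g h : E, g * s * g⁻¹ = h * s * h⁻¹ → g⁻¹ * h ∈ centralizer ({s} : Set E) := by
    intro g h hgh
    rw [mem_centralizer_iff]
    rintro x rfl
    have h3 : x * (g⁻¹ * h) = g⁻¹ * (g * x * g⁻¹) * h := by group
    have h4 : g⁻¹ * h * x = g⁻¹ * (h * x * h⁻¹) * h := by group
    rw [h3, h4, hgh]
  let φ : E ⧸ centralizer ({s} : Set E) → {g : E | IsOfFinOrder g} :=
    Quotient.lift (fun g => (⟨g * s * g⁻¹, hconj g⟩ : {g : E | IsOfFinOrder g})) (by
      intro g h hgh
      have h1 : g⁻¹ * h ∈ centralizer ({s} : Set E) := QuotientGroup.leftRel_apply.1 hgh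
      exact Subtype.ext (hwd g h h1))
  have hφ : Function.Injective φ := by
    intro x y
    induction x using QuotientGroup.induction_on with
    | H g =>
      induction y using QuotientGroup.induction_on with
      | H h =>
        intro hxy
        have h1 : g * s * g⁻¹ = h * s * h⁻¹ := congrArg Subtype.val hxy
        exact QuotientGroup.eq.2 (hinj g h h1)
  haveI : Finite (E ⧸ centralizer ({s} : Set E)) := Finite.of_injective φ hφ
  exact finiteIndex_of_finite_quotient

theorem mem_lfRad_of_fin {E : Type} [Group E] (s : E) (hT : {g : E | IsOfFinOrder g}.Finite)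
    (hs : IsOfFinOrder s) : s ∈ lfRad E := by
  refine mem_lfRad_of_comm hs (cen_index s hT hs) fun h hh => ?_
  rw [mem_centralizer_iff] at hh
  exact (hh s rfl).symm

theorem t_QUNI : S_SSUB → S_QUNI := by
  intro hSSUB G _ κ F hdir hcov hQ H _ f hker hSh hInf a ha
  classical
  -- the preimages
  have hfin : ∀ S : Finset H, ∃ k, ∀ x ∈ S, x ∈ (F k).comap f := by
    intro S
    induction S using Finset.induction_on with
    | empty =>
      obtain ⟨k, -⟩ := hcov 1
      exact ⟨k, fun x hx => absurd hx (Finset.notMem_empty x)⟩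
    | insert y S _ ih =>
      obtain ⟨k, hk⟩ := ih
      obtain ⟨l, hl⟩ := hcov (f y)
      obtain ⟨m, hkm, hlm⟩ := hdir k l
      refine ⟨m, fun x hx => ?_⟩
      rcases Finset.mem_insert.1 hx with rfl | hx
      · exact hlm hl
      · exact hkm (hk x hx)
  by_cases hcase : ∃ k, a ∈ (F k).comap f ∧ InfTor ((F k).comap f)
  · obtain ⟨k, hak, hInfk⟩ := hcase
    have hgood : Good (f.subgroupComap (F k)).ker := by
      let j : (f.subgroupComap (F k)).ker →* f.ker :=
        { toFun := fun x => ⟨((x : (F k).comap f) : H), by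
            have h1 : f.subgroupComap (F k) (x : (F k).comap f) = 1 := x.2
            have h2 := congrArg Subtype.val h1
            exact h2⟩
          map_one' := rfl
          map_mul' := fun x y => rfl }
      refine hker.comp j ?_
      intro x y hxy
      have h1 : ((j x : f.ker) : H) = ((j y : f.ker) : H) := congrArg Subtype.val hxy
      exact Subtype.ext (Subtype.ext h1)
    have hShk : IsShunkov ((F k).comap f) :=
      hSSUB H ((F k).comap f) ((F k).comap f).subtype ((F k).comap f).subtype_injective hSh
    have hcon := hQ k ((F k).comap f) (f.subgroupComap (F k)) hgood hShk hInfk ⟨a, hak⟩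
      (by rw [Subgroup.orderOf_mk]; exact ha)
    obtain ⟨K, haK, hKinf, hKlf⟩ := hcon
    refine ⟨K.map ((F k).comap f).subtype, ⟨_, haK, rfl⟩, ?_, hKlf.map _⟩
    rw [coe_map]
    exact hKinf.image ((F k).comap f).subtype_injective.injOn
  · push Not at hcase
    have hafin : IsOfFinOrder a := orderOf_pos_iff.1 ha.pos
    -- finitely many torsion elements generate a finite subgroup
    have key : ∀ S : Finset H, (∀ s ∈ S, IsOfFinOrder s) →
        ((closure (S : Set H) : Subgroup H) : Set H).Finite := by
      intro S hS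
      obtain ⟨k, hk⟩ := hfin (insert a S)
      have hak : a ∈ (F k).comap f := hk a (Finset.mem_insert_self a S)
      have hT : {g : (F k).comap f | IsOfFinOrder g}.Finite := by
        have h1 := hcase k hak
        unfold InfTor at h1
        rwa [Set.not_infinite] at h1
      have hlf : IsLocFin ((lfRad ((F k).comap f)).map ((F k).comap f).subtype) :=
        isLocFin_lfRad.map _
      refine hlf S ?_
      intro s hs
      have hsk : s ∈ (F k).comap f := hk s (Finset.mem_insert_of_mem hs)
      refine ⟨⟨s, hsk⟩, mem_lfRad_of_fin _ hT ?_, rfl⟩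
      have h2 := hS s hs
      rw [isOfFinOrder_iff_pow_eq_one] at h2 ⊢
      obtain ⟨n, hn, h3⟩ := h2
      exact ⟨n, hn, Subtype.ext h3⟩
    refine ⟨closure {g : H | IsOfFinOrder g}, subset_closure hafin, ?_, ?_⟩
    · exact Set.Infinite.mono subset_closure hInf
    · intro S hS
      obtain ⟨S', hS', hSS'⟩ := subset_closure_finset S hS
      exact (key S' hS').subset ((closure_le _).2 hSS')

end Pool.Agent.Helper89.SH
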